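import Pool.Agent.Helper88.MT.Simple

/-!
Root vectors have square zero on the module if a Cartan subalgebra contains an element with
eigenvalues one and minus one.
-/

open Module LieModule LieAlgebra LieAlgebra.IsKilling

attribute [local instance 100] LieRing.ofAssociativeRing

namespace TR

open MTP MTP.MF

variable {K : Type*} [Field K] [CharZero K] [IsAlgClosed K]
  {L : Type*} [LieRing L] [LieAlgebra K L] [FiniteDimensional K L] [IsKilling K L]
  {H : LieSubalgebra K L} [H.IsCartanSubalgebra]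
  {V : Type*} [AddCommGroup V] [Module K V] [FiniteDimensional K V]
  [LieRingModule L V] [LieModule K L V] {I : Type*} [Fintype I] (B : WB (V := V) H I)

/-- A root which does not vanish on `s` takes the value two or minus two. -/
lemma root_val (hfaith : ∀ x : L, (∀ u : V, ⁅x, u⁆ = 0) → x = 0)
    {s : H} (hs : ∀ i, B.w i s = 1 ∨ B.w i s = -1) (α : H.root) (h0 : α.1 s ≠ 0) :
    α.1 s = 2 ∨ α.1 s = -2 := by
  obtain ⟨i, j, hij⟩ := B.root_apply hfaith α
  have h1 := hij s
  rcases hs i with h2 | h2 <;> rcases hs j with h3 | h3 <;> rw [h2, h3] at h1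
  · exact absurd (by linear_combination -h1) h0
  · right; linear_combination -h1
  · left; linear_combination -h1
  · exact absurd (by linear_combination -h1) h0

/-- Roots which do not vanish on `s`. -/
lemma sq_zero_of_ne (hfaith : ∀ x : L, (∀ u : V, ⁅x, u⁆ = 0) → x = 0)
    {s : H} (hs : ∀ i, B.w i s = 1 ∨ B.w i s = -1) (α : H.root) (h0 : α.1 s ≠ 0)
    {x : L} (hx : x ∈ rootSpace H α.1) (u : V) : ⁅x, ⁅x, u⁆⁆ = 0 := by
  classical
  rw [← B.v.sum_repr u, lie_sum, lie_sum]
  refine Finset.sum_eq_zero fun i _ => ?_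
  rw [lie_smul, lie_smul]
  have h1 : ⁅x, ⁅x, B.v i⁆⁆ = 0 := by
    apply B.v.repr.injective
    rw [map_zero]
    ext j
    by_contra hj
    have h2 : ⁅(s : L), ⁅x, ⁅x, B.v i⁆⁆⁆ = (2 * α.1 s + B.w i s) • ⁅x, ⁅x, B.v i⁆⁆ := by
      rw [leibniz_lie, lie_root hx, B.lie_root_v hx, smul_lie, lie_smul, ← add_smul]
      congr 1
      ring
    have h3 := B.coord h2 hj
    have h2' : (2 : K) ≠ 0 := two_ne_zero
    rcases root_val B hfaith hs α h0 with h4 | h4 <;> rcases hs i with h5 | h5 <;>
      rcases hs j with h6 | h6 <;> rw [h4, h5, h6] at h3 <;> norm_num at h3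
  rw [h1, smul_zero]

/-- Eigenvalues of a coroot whose root vectors have square zero. -/
lemma eigen_shift {β : H.root} {e f : L} (ht : IsSl2Triple ((coroot β.1 : H) : L) e f)
    (he : e ∈ rootSpace H β.1) (hee : ∀ u : V, ⁅e, ⁅e, u⁆⁆ = 0) (i : I)
    (hne : ⁅e, B.v i⁆ ≠ 0) :
    B.w i (coroot β.1) = -1 ∧ ∃ j, ∀ h : H, B.w j h = β.1 h + B.w i h := by
  classical
  constructor
  · have h1 : ⁅((coroot β.1 : H) : L), ⁅e, B.v i⁆⁆ = (2 + B.w i (coroot β.1)) • ⁅e, B.v i⁆ := by
      rw [B.lie_root_v he, root_apply_coroot (H.isNonZero_coe_root β)]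
    have h2 : ⁅((coroot β.1 : H) : L), ⁅e, B.v i⁆⁆ = ⁅e, ⁅f, ⁅e, B.v i⁆⁆⁆ := by
      rw [← ht.lie_e_f, lie_lie, hee, lie_zero, sub_zero]
    have h3 : ⁅e, ⁅((coroot β.1 : H) : L), B.v i⁆⁆ = - ⁅e, ⁅f, ⁅e, B.v i⁆⁆⁆ := by
      rw [← ht.lie_e_f, lie_lie, lie_sub, hee, zero_sub]
    rw [B.lie_v, lie_smul, ← h2, h1, ← neg_smul] at h3
    have h4 : (B.w i (coroot β.1) + (2 + B.w i (coroot β.1))) • ⁅e, B.v i⁆ = 0 := by
      rw [add_smul, h3, ← add_smul]
      rw [neg_add_cancel, zero_smul]
    have h5 := (smul_eq_zero.mp h4).resolve_right hne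
    have h6 : (2 : K) * (B.w i (coroot β.1) + 1) = 0 := by linear_combination h5
    have h7 := (mul_eq_zero.mp h6).resolve_left two_ne_zero
    linear_combination h7
  · have h2 : ∃ j, B.v.repr ⁅e, B.v i⁆ j ≠ 0 := by
      by_contra! hcon
      apply hne
      apply B.v.repr.injective
      ext j
      rw [hcon j]; simp
    obtain ⟨j, hj⟩ := h2
    exact ⟨j, B.coord_root he hj⟩

/-- The opposite root. -/
noncomputable def nroot (β : H.root) : H.root := ⟨-β.1, by
  have := H.isNonZero_coe_root β
  simpa [LieSubalgebra.root] using this⟩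

/-- The set of elements with eigenvalues one and minus one is stable under reflections. -/
lemma stable (hfaith : ∀ x : L, (∀ u : V, ⁅x, u⁆ = 0) → x = 0)
    {s : H} (hs : ∀ i, B.w i s = 1 ∨ B.w i s = -1) (β : H.root) (i : I) :
    B.w i ((rootSystem H).coreflection β s) = 1 ∨
      B.w i ((rootSystem H).coreflection β s) = -1 := by
  have hc : (rootSystem H).coreflection β s = s - β.1 s • coroot β.1 := rfl
  rw [hc, map_sub, map_smul, smul_eq_mul]
  by_cases h0 : β.1 s = 0
  · rw [h0, zero_mul, sub_zero]; exact hs i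
  obtain ⟨h, e, f, ht, he, hf⟩ := exists_isSl2Triple_of_weight_isNonZero
    (H.isNonZero_coe_root β)
  rw [ht.h_eq_coroot (H.isNonZero_coe_root β) he hf] at ht
  have hee := fun u => sq_zero_of_ne B hfaith hs β h0 he (u := u)
  have hf' : f ∈ rootSpace H (nroot β).1 := hf
  have h0' : (nroot β).1 s ≠ 0 := by
    intro h
    apply h0
    have : -(β.1 s) = 0 := h
    exact neg_eq_zero.mp this
  have hff := fun u => sq_zero_of_ne B hfaith hs (nroot β) h0' hf' (u := u)
  have ht' : IsSl2Triple ((coroot (nroot β).1 : H) : L) f e := by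
    have h1 : ((coroot (nroot β).1 : H) : L) = -((coroot β.1 : H) : L) := by
      have : coroot (nroot β).1 = - coroot β.1 := coroot_neg β.1
      rw [this]; rfl
    rw [h1]
    exact ht.symm
  by_cases h1 : ⁅e, B.v i⁆ = 0
  · by_cases h2 : ⁅f, B.v i⁆ = 0
    · have h3 : ⁅((coroot β.1 : H) : L), B.v i⁆ = 0 := by
        rw [← ht.lie_e_f, lie_lie, h1, h2, lie_zero, lie_zero, sub_zero]
      rw [B.lie_v] at h3
      have h4 := (smul_eq_zero.mp h3).resolve_right (B.v.ne_zero i)
      rw [h4, mul_zero, sub_zero]; exact hs i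
    · obtain ⟨h3, j, hj⟩ := eigen_shift B ht' hf' hff i h2
      have h4 : coroot (nroot β).1 = - coroot β.1 := coroot_neg β.1
      rw [h4, map_neg] at h3
      have h5 := hj s
      have h6 : (nroot β).1 s = -(β.1 s) := rfl
      rw [h6] at h5
      have h7 : B.w i s - β.1 s * B.w i (coroot β.1) = B.w j s := by
        rw [h5]; linear_combination (β.1 s) * h3
      rw [h7]; exact hs j
  · obtain ⟨h3, j, hj⟩ := eigen_shift B ht he hee i h1
    have h5 := hj s
    have h7 : B.w i s - β.1 s * B.w i (coroot β.1) = B.w j s := by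
      rw [h5, h3]; ring
    rw [h7]; exact hs j

/-- B1 -/
theorem sq_zero (hfaith : ∀ x : L, (∀ u : V, ⁅x, u⁆ = 0) → x = 0)
    {s : H} (hs : ∀ i, B.w i s = 1 ∨ B.w i s = -1) [(rootSystem H).IsIrreducible]
    (hnz : Nonempty I) (α : H.root) {x : L} (hx : x ∈ rootSpace H α.1) :
    toEnd K L V x * toEnd K L V x = 0 := by
  -- the span of all elements with eigenvalues one and minus one
  let q : Submodule K H := Submodule.span K {t : H | ∀ i, B.w i t = 1 ∨ B.w i t = -1}
  have hq : q = ⊤ := by
    apply RootPairing.IsIrreducible.eq_top_of_invtSubmodule_coreflection (P := rootSystem H) q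
    · intro β
      rw [Module.End.mem_invtSubmodule]
      intro t ht
      rw [Submodule.mem_comap]
      induction ht using Submodule.span_induction with
      | zero => simp
      | add a b _ _ ha hb => rw [map_add]; exact add_mem ha hb
      | smul c a _ ha => rw [map_smul]; exact Submodule.smul_mem _ _ ha
      | mem t ht => exact Submodule.subset_span (fun i => stable B hfaith ht β i)
    · intro h
      have h1 : s ∈ q := Submodule.subset_span hs
      rw [h, Submodule.mem_bot] at h1
      obtain ⟨i⟩ := hnz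
      rcases hs i with h2 | h2 <;> rw [h1, map_zero] at h2
      · exact one_ne_zero h2.symm
      · exact one_ne_zero (neg_eq_zero.mp h2.symm)
  -- one of them has a non zero value of the root
  obtain ⟨t, ht, ht0⟩ : ∃ t : H, (∀ i, B.w i t = 1 ∨ B.w i t = -1) ∧ α.1 t ≠ 0 := by
    by_contra! hcon
    have h1 : q ≤ LinearMap.ker (α.1.toLinear) := by
      rw [Submodule.span_le]
      intro t ht
      exact hcon t ht
    rw [hq, top_le_iff, LinearMap.ker_eq_top] at h1
    apply H.isNonZero_coe_root α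
    ext t
    exact LinearMap.congr_fun h1 t
  ext u
  exact sq_zero_of_ne B hfaith ht α ht0 hx u

end TR
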