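import Pool.Agent.Helper21.TR.Wedge
import Pool.Agent.Helper80.TR.Diag

/-!
A place of bad reduction for the exterior cube of the standard representation of `SL_6`.
-/

open Module MTPairs

namespace TR.Wdg

open TR.W3

section unip
variable {K : Type*} [Field K] {ι : Type*} [LinearOrder ι] [Fintype ι] {k : ℕ}

lemma diag_mulVec (a : ι) (v : Ix ι k → K) (S : Ix ι k) :
    (M K k a a).mulVec v S = if a ∈ S.1 then v S else 0 := by
  rw [M_same, Matrix.mulVec_diagonal]
  split_ifs <;> simp

lemma mulVec_eq_zero_of_notMem {i j : ι} (v : Ix ι k → K) {S : Ix ι k} (hi : i ∉ S.1) :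
    (M K k i j).mulVec v S = 0 := by
  have h1 : (M K k i i).mulVec ((M K k i j).mulVec v) S = 0 := by
    rw [diag_mulVec, if_neg hi]
  rwa [Matrix.mulVec_mulVec, M_diag_mul] at h1

lemma ker_M {i j : ι} (h : i ≠ j) : LinearMap.ker (M K k i j).mulVecLin =
    coordSub K (Finset.univ.filter fun S : Ix ι k => ¬ (j ∈ S.1 ∧ i ∉ S.1)) := by
  ext v
  rw [LinearMap.mem_ker, Matrix.mulVecLin_apply, mem_coordSub]
  constructor
  · intro hv S hS
    rw [Finset.mem_filter] at hS
    push Not at hS
    obtain ⟨hj, hi⟩ := hS (Finset.mem_univ _)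
    have h4 := congrArg (fun X => X.mulVec v) (M_cross (K := K) (k := k) (i := i) (j := j))
    simp only [Matrix.sub_mulVec] at h4
    rw [← Matrix.mulVec_mulVec v (M K k j i) (M K k i j), hv, Matrix.mulVec_zero, sub_zero,
      ← Matrix.mulVec_mulVec] at h4
    have h5 := congrFun h4 S
    rw [Pi.sub_apply, diag_mulVec, diag_mulVec, if_neg hi, if_pos hj,
      mulVec_eq_zero_of_notMem _ hi] at h5
    linear_combination h5
  · intro hv
    have h1 : (M K k j j).mulVec (v - (M K k i i).mulVec v) = 0 := by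
      funext S
      rw [diag_mulVec, Pi.sub_apply, diag_mulVec, Pi.zero_apply]
      by_cases hj : j ∈ S.1
      · rw [if_pos hj]
        by_cases hi : i ∈ S.1
        · rw [if_pos hi, sub_self]
        · rw [if_neg hi, sub_zero]
          refine hv S fun hS => ?_
          rw [Finset.mem_filter] at hS
          exact hS.2 ⟨hj, hi⟩
      · rw [if_neg hj]
    have h2 := congrArg (fun w => (M K k i j).mulVec w) h1
    simp only [Matrix.mulVec_zero] at h2
    rw [Matrix.mulVec_mulVec, M_mul_same, Matrix.mulVec_sub, Matrix.mulVec_mulVec,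
      M_mul_diag h, Matrix.zero_mulVec, sub_zero] at h2
    exact h2

lemma map_M {i j : ι} (h : i ≠ j) : (⊤ : Submodule K (Ix ι k → K)).map (M K k i j).mulVecLin =
    coordSub K (Finset.univ.filter fun S : Ix ι k => i ∈ S.1 ∧ j ∉ S.1) := by
  apply le_antisymm
  · rintro _ ⟨v, -, rfl⟩
    rw [mem_coordSub]
    intro S hS
    rw [Matrix.mulVecLin_apply]
    by_cases hi : i ∈ S.1
    · have hj : j ∈ S.1 := by
        by_contra hj
        exact hS (Finset.mem_filter.mpr ⟨Finset.mem_univ _, hi, hj⟩)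
      have h1 : (M K k j j).mulVec ((M K k i j).mulVec v) S = (M K k i j).mulVec v S := by
        rw [diag_mulVec, if_pos hj]
      rw [← h1, Matrix.mulVec_mulVec, M_same_mul h, Matrix.zero_mulVec]
      rfl
    · exact mulVec_eq_zero_of_notMem _ hi
  · intro w hw
    rw [mem_coordSub] at hw
    have h1 : (M K k i i).mulVec w = w := by
      funext S
      rw [diag_mulVec]
      split_ifs with hi
      · rfl
      · exact (hw S (fun hS => hi (Finset.mem_filter.mp hS).2.1)).symm
    have h2 : (M K k j j).mulVec w = 0 := by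
      funext S
      rw [diag_mulVec]
      split_ifs with hj
      · exact hw S (fun hS => (Finset.mem_filter.mp hS).2.2 hj)
      · rfl
    have h3 : (M K k i j).mulVec w = 0 := by
      rw [← M_mul_same (i := i) (j := j), ← Matrix.mulVec_mulVec, h2, Matrix.mulVec_zero]
    refine ⟨(M K k j i).mulVec w, trivial, ?_⟩
    rw [Matrix.mulVecLin_apply, Matrix.mulVec_mulVec]
    have h4 := congrArg (fun X => X.mulVec w) (M_cross (K := K) (k := k) (i := i) (j := j))
    simp only [Matrix.sub_mulVec] at h4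
    rw [h1, h2, sub_zero, ← Matrix.mulVec_mulVec w (M K k j i) (M K k i j), h3,
      Matrix.mulVec_zero, sub_zero] at h4
    exact h4

end unip

/-- the exponents of the diagonal element -/
def ee (S : Ix (Fin (2 * 3)) 3) : ℤ :=
  (if (0 : Fin (2 * 3)) ∈ S.1 then 1 else 0) + (if (1 : Fin (2 * 3)) ∈ S.1 then 1 else 0)

/-- the index set of the kernel -/
def AA : Finset (Ix (Fin (2 * 3)) 3) :=
  Finset.univ.filter fun S => ¬ ((1 : Fin (2 * 3)) ∈ S.1 ∧ (0 : Fin (2 * 3)) ∉ S.1)

/-- the index set of the image -/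
def BB : Finset (Ix (Fin (2 * 3)) 3) :=
  Finset.univ.filter fun S => (0 : Fin (2 * 3)) ∈ S.1 ∧ (1 : Fin (2 * 3)) ∉ S.1

lemma card_BB : BB.card = 6 := by decide +kernel

lemma card_two : ((AA \ BB).filter fun p => ee p = 2).card = 4 := by decide +kernel

lemma card_zero : ((AA \ BB).filter fun p => ee p = 0).card = 4 := by decide +kernel

lemma ee_mem : ∀ p ∈ AA \ BB, ee p = 0 ∨ ee p = 2 := by decide +kernel

lemma ee_cp : ∀ p : Ix (Fin (2 * 3)) 3, ee p + ee (cp p) = 2 := by decide +kernel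

lemma ee_BB : ∀ p ∈ BB, ee p = 1 := by decide +kernel

lemma BB_le : BB ⊆ AA := by decide +kernel

lemma card_other {i : ℤ} (h0 : i ≠ 0) (h2 : i ≠ 2) :
    ((AA \ BB).filter fun p => ee p = i).card = 0 := by
  rw [Finset.card_eq_zero, Finset.filter_eq_empty_iff]
  intro p hp h
  rcases ee_mem p hp with h1 | h1
  · exact h0 (h.symm.trans h1)
  · exact h2 (h.symm.trans h1)

end TR.Wdg

namespace TR

open TR.W3 TR.Wdg

/-- Sharpness, Q9c: `wedge^3 SL_6`: rank `6`, `d = 2`. -/
theorem sharp_plus_wedge (K : Type*) [Field K] [CharZero K] [IsAlgClosed K] :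
    ∃ (m : Type) (_ : Fintype m) (_ : DecidableEq m) (J : Matrix m m K)
      (G : Subgroup (Matrix.GeneralLinearGroup m K)), Fintype.card m = 20 ∧
      IsMTPair J G ∧ IsSplit J G (fun _ : Unit => (⊤ : Submodule K (m → K))) ∧
      (∃ u ∈ G, ∃ g ∈ G, IsBad J u g ⊤ 6 2) ∧
      ¬ IsFull J G (fun _ : Unit => (⊤ : Submodule K (m → K))) := by
  have hm : Odd 3 := by decide
  have hpair : IsMTPair (Jw K 3) (GenG (Lam K (Fin (2 * 3)) 3)) :=
    isMTPair_gen (Jw_transpose hm) (Jw_det hm) Lam_idem Lam_lag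
  have h01 : (0 : Fin (2 * 3)) ≠ 1 := by decide
  refine ⟨Ix (Fin (2 * 3)) 3, inferInstance, inferInstance, Jw K 3,
    GenG (Lam K (Fin (2 * 3)) 3), ?_, hpair, ?_, ?_, ?_⟩
  · rw [Fintype.card_finset_len, Fintype.card_fin]
    rfl
  · refine ⟨?_, ?_, fun _ _ _ _ _ => trivial, ?_, ?_⟩
    · rw [DirectSum.isInternal_submodule_iff_iSupIndep_and_iSup_eq_top]
      refine ⟨?_, by simp⟩
      intro i
      simp
    · intro i j hij
      exact absurd (Subsingleton.elim i j) hij
    · intro _ U _ hU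
      apply irr
      intro π hπ v hv
      obtain ⟨g, hg, hgt⟩ := (GenG_cochar (Lam_idem π hπ) hπ).2 2 two_ne_zero
      have h1 := hU g hg v hv
      have h2 : (g : Matrix _ _ K).mulVec v = π.mulVec v + v := by
        rw [hgt]
        have : (2 : K) • π + (1 - π) = π + 1 := by rw [two_smul]; abel
        rw [this, Matrix.add_mulVec, Matrix.one_mulVec]
      rw [h2] at h1
      have := U.sub_mem h1 hv
      rwa [add_sub_cancel_right] at this
    · intro i j hij
      exact absurd (Subsingleton.elim i j) hij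
  · have hP0 : M K 3 (0 : Fin (2 * 3)) 0 ∈ Lam K (Fin (2 * 3)) 3 := Or.inl ⟨0, rfl⟩
    have hP1 : M K 3 (1 : Fin (2 * 3)) 1 ∈ Lam K (Fin (2 * 3)) 3 := Or.inl ⟨1, rfl⟩
    obtain ⟨g0, hg0, hg0'⟩ := (GenG_cochar (Lam_idem _ hP0) hP0).2 2 two_ne_zero
    obtain ⟨g1, hg1, hg1'⟩ := (GenG_cochar (Lam_idem _ hP1) hP1).2 2 two_ne_zero
    have hdiag : ∀ a : Fin (2 * 3), (2 : K) • M K 3 a a + (1 - M K 3 a a) =
        Matrix.diagonal (fun S : Ix (Fin (2 * 3)) 3 => if a ∈ S.1 then (2 : K) else 1) := by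
      intro a
      rw [M_same, ← Matrix.diagonal_one, ← Matrix.diagonal_smul, Matrix.diagonal_sub,
        Matrix.diagonal_add]
      congr 1
      funext S
      by_cases h : a ∈ S.1
      · simp [h]
      · simp [h]
    have hg : ((g0 * g1 : Matrix.GeneralLinearGroup (Ix (Fin (2 * 3)) 3) K) : Matrix _ _ K) =
        Matrix.diagonal (fun S => (2 : K) ^ ee S) := by
      rw [Units.val_mul, hg0', hg1', hdiag, hdiag, Matrix.diagonal_mul_diagonal]
      congr 1
      funext S
      unfold ee
      by_cases h0 : (0 : Fin (2 * 3)) ∈ S.1 <;> by_cases h1 : (1 : Fin (2 * 3)) ∈ S.1 <;>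
        simp [h0, h1]
      norm_num [zpow_ofNat]
    refine ⟨un K 3 h01, un_mem h01, g0 * g1, Subgroup.mul_mem _ hg0 hg1, ?_⟩
    have e : (un K 3 h01 : Matrix (Ix (Fin (2 * 3)) 3) (Ix (Fin (2 * 3)) 3) K) - 1 =
        M K 3 (0 : Fin (2 * 3)) 1 := by
      change 1 + M K 3 (0 : Fin (2 * 3)) 1 - 1 = _
      abel
    refine isBad_of_diag ee hg AA BB ?_ ?_ BB_le ee_BB (w := 2) ?_ (by norm_num) card_BB
      (by decide) ?_ ?_ ?_
    · rw [e]; exact ker_M h01
    · rw [e]; exact map_M h01
    · rw [hg, Matrix.diagonal_transpose]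
      ext S T
      rw [Matrix.mul_diagonal, Matrix.diagonal_mul, Matrix.smul_apply, smul_eq_mul, Jw]
      split_ifs with h
      · subst h
        have h1 := ee_cp S
        rw [mul_right_comm, ← zpow_add₀ (two_ne_zero : (2 : K) ≠ 0), h1]
      · rw [mul_zero, zero_mul, mul_zero]
    · intro i hi
      by_cases h0 : i = 0
      · rw [h0, card_zero]; decide
      · by_cases h2 : i = 2
        · rw [h2, card_two]; decide
        · rw [card_other h0 h2]; exact dvd_zero _
    · intro i hi
      rw [card_other (by omega) (by omega)]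
      exact dvd_zero _
    · intro d' h1 h2 _
      have h3 := h2 2 (by norm_num)
      rw [card_two] at h3
      have h4 := Nat.dvd_sub h1 h3
      exact h4
  · intro hfull
    obtain ⟨g, hg, hgd⟩ := exists_not_nor (K := K) hm le_rfl
    apply hgd
    have h1 := hfull g ⟨1, hg⟩ (fun _ _ _ => trivial)
    exact GenG_le (Nor_closed _) Lam_nor h1

end TR
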